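import Pool.Agent.Work.MP_ebc928_an.Final

/-!
# MP_ebc928_an: the maximal shear modulus at zero bulk modulus is larger than `4μ/5`

The plane `ℝ²` is identified with `ℂ` (`z = x + i y`) and a displacement `(u₁, u₂)` with the complex
valued function `u = u₁ + i u₂`; `ux`, `uy` are its weak partial derivatives, so that
`∂₁u₁ = (ux z).re`, `∂₁u₂ = (ux z).im`, `∂₂u₁ = (uy z).re`, `∂₂u₂ = (uy z).im`.
-/

open MeasureTheory Complex Set
open scoped ContDiff ENNReal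

noncomputable section

namespace Pool.Agent.Results.MP_ebc928_an.IsotropicAboveFourFifths

/-- The unit cell of the lattice `ℤ²`. -/
def cell : Set ℂ := {z | z.re ∈ Ico (0 : ℝ) 1 ∧ z.im ∈ Ico (0 : ℝ) 1}

/-- `ℤ²`-periodic functions on the plane. -/
def Per (f : ℂ → ℂ) : Prop := ∀ z, f (z + 1) = f z ∧ f (z + I) = f z

/-- `g` is the weak (distributional) derivative of `u` in the direction `e`. -/
def WeakDeriv (e : ℂ) (u g : ℂ → ℂ) : Prop :=
  ∀ φ : ℂ → ℝ, ContDiff ℝ ∞ φ → HasCompactSupport φ →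
    ∫ z, (fderiv ℝ φ z e) • u z = - ∫ z, φ z • g z

/-- `u` is a periodic displacement of class `H¹` with weak partial derivatives `ux`, `uy`. -/
def Fluctuation (u ux uy : ℂ → ℂ) : Prop :=
  Per u ∧ Per ux ∧ Per uy ∧
  MemLp u 2 (volume.restrict cell) ∧ MemLp ux 2 (volume.restrict cell) ∧
  MemLp uy 2 (volume.restrict cell) ∧ WeakDeriv 1 u ux ∧ WeakDeriv I u uy

/-- A composite: a measurable `ℤ²`-periodic set `S` (the elastic phase); the rest is void. -/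
def Composite (S : Set ℂ) : Prop :=
  MeasurableSet S ∧ ∀ z, (z + 1 ∈ S ↔ z ∈ S) ∧ (z + I ∈ S ↔ z ∈ S)

open Classical in
/-- Energy density at `z` for the strain `[[a,c],[c,b]]`: in the elastic phase
`2μ(a² + b² + 2c²)` if the trace `a + b` vanishes and `+∞` otherwise; zero in the void. -/
def density (μ : ℝ) (S : Set ℂ) (z : ℂ) (a b c : ℝ) : ℝ≥0∞ :=
  if z ∈ S then (if a + b = 0 then ENNReal.ofReal (2 * μ * (a ^ 2 + b ^ 2 + 2 * c ^ 2)) else ⊤)
  else 0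

/-- `ε : C_* ε` for the average strain `ε = [[a,c],[c,b]]`: the infimum, over the periodic
displacement fluctuations `u`, of the cell average of the energy density at `ε + ∇ˢu`. -/
def effEnergy (μ : ℝ) (S : Set ℂ) (a b c : ℝ) : ℝ≥0∞ :=
  ⨅ (u : ℂ → ℂ) (ux : ℂ → ℂ) (uy : ℂ → ℂ) (_ : Fluctuation u ux uy),
    ∫⁻ z in cell, density μ S z (a + (ux z).re) (b + (uy z).im) (c + ((ux z).im + (uy z).re) / 2)

/-- The composite `S` is isotropic with bulk modulus `κ` and shear modulus `m`: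
`ε : C_* ε = κ (tr ε)² + 2 m |dev ε|²`, where `|dev ε|² = (a-b)²/2 + 2c²`. -/
def IsIsotropic (μ : ℝ) (S : Set ℂ) (κ m : ℝ) : Prop :=
  ∀ a b c : ℝ, effEnergy μ S a b c =
    ENNReal.ofReal (κ * (a + b) ^ 2 + 2 * m * ((a - b) ^ 2 / 2 + 2 * c ^ 2))

/-- The set of pairs `(κ_*, μ_*)` of all isotropic composites of the incompressible phase with
shear modulus `μ` and void. Its closure is the set `𝒜` of the problem. -/
def isoPairs (μ : ℝ) : Set (ℝ × ℝ) :=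
  {p | 0 ≤ p.1 ∧ 0 ≤ p.2 ∧ ∃ S : Set ℂ, Composite S ∧ IsIsotropic μ S p.1 p.2}

theorem fluct_iff (u ux uy : ℂ → ℂ) : Fluctuation u ux uy ↔ EBC.Fluct u ux uy :=
  ⟨fun h => ⟨h.1, h.2.1, h.2.2.1, h.2.2.2.1, h.2.2.2.2.1, h.2.2.2.2.2.1, h.2.2.2.2.2.2.1,
    h.2.2.2.2.2.2.2⟩, fun h => ⟨h.per, h.perx, h.pery, h.mem, h.memx, h.memy, h.wx, h.wy⟩⟩

theorem effEnergy_eq (μ : ℝ) (S : Set ℂ) (a b c : ℝ) :
    effEnergy μ S a b c = EBC.effEnergy μ S a b c := by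
  unfold effEnergy EBC.effEnergy
  simp only [fluct_iff]
  rfl

theorem isoPairs_eq (μ : ℝ) : isoPairs μ = EBC.isoPairs μ := by
  ext p
  constructor
  · rintro ⟨h1, h2, S, hS, hI⟩
    exact ⟨h1, h2, S, ⟨hS.1, hS.2⟩, fun a b c => by rw [← effEnergy_eq]; exact hI a b c⟩
  · rintro ⟨h1, h2, S, hS, hI⟩
    exact ⟨h1, h2, S, ⟨hS.meas, hS.per⟩, fun a b c => by rw [effEnergy_eq]; exact hI a b c⟩

/-- For every `μ > 0` there is a pair `(0, m)` with `m ≥ 41μ/50 = 0.82 μ` in the closure of the set of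
pairs of moduli of isotropic composites; hence the supremum of all such `m` (which is at most `μ`) is
at least `41μ/50`, and it is not `4μ/5`. -/
theorem result (μ : ℝ) (hμ : 0 < μ) :
    (∃ m : ℝ, 41 / 50 * μ ≤ m ∧ ((0 : ℝ), m) ∈ closure (isoPairs μ)) ∧
    (∀ m : ℝ, ((0 : ℝ), m) ∈ closure (isoPairs μ) → m ≤ μ) ∧
    41 / 50 * μ ≤ sSup {m : ℝ | ((0 : ℝ), m) ∈ closure (isoPairs μ)} ∧
    sSup {m : ℝ | ((0 : ℝ), m) ∈ closure (isoPairs μ)} ≠ 4 * μ / 5 := by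
  rw [isoPairs_eq]
  obtain ⟨⟨m, hm, hmc⟩, h2, h3⟩ := EBC.final hμ
  exact ⟨⟨m, hm, hmc⟩, h2, hm.trans (le_csSup ⟨μ, fun m hm => h2 m hm⟩ hmc), h3⟩

end Pool.Agent.Results.MP_ebc928_an.IsotropicAboveFourFifths
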